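import Pool.Agent.Y392.SD.Fin

set_option autoImplicit false

/-!
# Strong circuit double covers through circuits that miss at most three vertices, all degrees

The starting result `TwoOff` treats circuits of length `n - 2` of cubic graphs. Here the degrees are
arbitrary, the circuit may miss three vertices, and whole families of circuits on its vertices are
prescribed.
-/

open Finset

namespace Pool.Agent.Results.MP_91c0b7_co.AllDegrees

open Pool.Agent.Helper347.Sab
open Pool.Agent.Y392.SD (OnCircuit)

/-- Let `G` be a finite loopless multigraph (parallel edges are allowed, the degrees are arbitrary)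
in which every edge lies on a circuit, and let `C` be a circuit that misses at most three vertices
of `G`. Then `C` belongs to a circuit double cover of `G`; more generally, every family of pairwise
edge-disjoint circuits of `G` whose vertices lie on `C` is contained in a circuit double cover. -/
theorem result {V E : Type} [Fintype V] [DecidableEq V] [Fintype E] [DecidableEq E]
    (G : MGraph V E) (hG : ∀ e, ∃ X, IsCircuit G X ∧ e ∈ X) (C : Finset E)
    (hC : IsCircuit G C) (hlen : (univ.filter fun v => dg G C v = 0).card ≤ 3) :
    (∃ F : Multiset (Finset E), IsCDC G F ∧ C ∈ F) ∧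
    ∀ T : Multiset (Finset E), OnCircuit G C T →
      ∃ F : Multiset (Finset E), IsCDC G F ∧ T ≤ F := by
  have key : ∀ T : Multiset (Finset E), OnCircuit G C T →
      ∃ F : Multiset (Finset E), IsCDC G F ∧ T ≤ F := fun T hT =>
    Pool.Agent.Y392.SD.family_short G C hC (fun e => by
      obtain ⟨X, hX, he⟩ := hG e
      exact ⟨X, Pool.Agent.Helper998.Near.ev_circuit G X hX, he⟩)
      (Pool.Agent.Y392.SD.short_of_three G C hlen) T hT
  refine ⟨?_, key⟩
  obtain ⟨F, hF, hle⟩ := key {C}
    (Pool.Agent.Y392.SD.onCircuit_single G C C hC fun v h => h)
  exact ⟨F, hF, Pool.Agent.Y392.SD.mem_of_single hle⟩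

end Pool.Agent.Results.MP_91c0b7_co.AllDegrees
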